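import Pool.Agent.H5.EF.Stm

/-! EF part CNT -/

open Set Filter Topology

namespace H98.EF

open H5.EF

theorem t_CNT : S_CNT := by
  intro u w h
  by_contra hlt
  push Not at hlt
  have hfin : zeroCount w ≠ ⊤ := hlt.ne_top
  obtain ⟨n, hn⟩ := ENat.ne_top_iff_exists.1 hfin
  have hle : ((n + 1 : ℕ) : ℕ∞) ≤ zeroCount u := by
    rw [← hn] at hlt
    have := Order.add_one_le_of_lt hlt
    push_cast
    exact this
  obtain ⟨t, hts, htc⟩ := Set.exists_subset_encard_eq hle
  have htf : t.Finite := by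
    rw [← Set.encard_ne_top_iff, htc]
    exact ENat.natCast_ne_top _
  obtain ⟨R, hR⟩ := htf.bddAbove
  have h1 : t ⊆ {r : ℝ | 0 < r ∧ r ≤ max R 1 ∧ u r = 0} := by
    intro r hr
    exact ⟨(hts hr).1, (hR hr).trans (le_max_left _ _), (hts hr).2⟩
  have h2 : ((n + 1 : ℕ) : ℕ∞) ≤ cnt (max R 1) u := by
    rw [← htc]
    exact Set.encard_le_encard h1
  have h3 : cnt (max R 1) w ≤ zeroCount w := by
    apply Set.encard_le_encard
    intro r hr
    exact ⟨hr.1, hr.2.2⟩
  have h4 := (h2.trans (h (max R 1) (lt_of_lt_of_le one_pos (le_max_right _ _)))).trans h3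
  rw [← hn] at h4
  have h5 : n + 1 ≤ n := by exact_mod_cast h4
  omega

end H98.EF
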