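import Pool.Agent.H5.EF.Stm

/-! EF parts PD, WD -/

open Set Filter Topology

namespace H98.EF

open H5.EF

theorem u_mul_ff (p x : ℝ) (hp : 1 < p) : x * ff p x = |x| ^ (p + 1) := by
  unfold ff
  rcases eq_or_ne x 0 with rfl | hx
  · rw [abs_zero, zero_mul, Real.zero_rpow (by intro h; linarith)]
  · have hx' : 0 < |x| := abs_pos.2 hx
    have h1 : |x| ^ (p + 1) = |x| ^ (p - 1) * |x| ^ (2 : ℝ) := by
      rw [← Real.rpow_add hx']
      congr 1
      ring
    rw [h1, Real.rpow_two, sq_abs]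
    ring

theorem t_PD (hFD : S_FD) : S_PD := by
  intro m p γ R s u v hm hp hs hN r hr
  obtain ⟨h1, h2, h3⟩ := hFD p hp
  have hr0 : 0 < r := hr.1
  have dG := gg_deriv (m := m) hr0
  have ds := hs.ds r hr0
  have du := hN.dy r hr
  have dv := hN.dz r hr
  have dA : HasDerivAt (fun r => |u r| ^ (p + 1)) ((p + 1) * ff p (u r) * v r) r :=
    (h2 (u r)).comp r du
  have hG : gg m r ≠ 0 := (gg_pos (m := m) hr0).ne'
  have hp1 : p + 1 ≠ 0 := by intro h; linarith
  have dQ : HasDerivAt (fun r => v r ^ 2 + 2 / (p + 1) * |u r| ^ (p + 1))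
      (2 * v r * (-(hh m r * v r) - ff p (u r)) + 2 * ff p (u r) * v r) r := by
    refine ((dv.pow 2).add (dA.const_mul (2 / (p + 1)))).congr_deriv ?_
    field_simp
    ring
  have dGs : HasDerivAt (fun r => gg m r * s r) (gg m r * hh m r * s r - 1) r := by
    refine (dG.mul ds).congr_deriv ?_
    field_simp
    ring
  have dP := dG.mul ((dGs.mul dQ).add (du.mul dv))
  refine dP.congr_deriv ?_
  have hu := u_mul_ff p (u r) hp
  simp only [Pi.add_apply, Pi.mul_apply]
  rw [← hu]
  field_simp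
  ring

theorem t_WD (hFD : S_FD) : S_WD := by
  intro m p γ R s u v φ ψ hm hp hs hN hL r hr
  obtain ⟨h1, h2, h3⟩ := hFD p hp
  have hr0 : 0 < r := hr.1
  have dG := gg_deriv (m := m) hr0
  have ds := hs.ds r hr0
  have du := hN.dy r hr
  have dv := hN.dz r hr
  have dφ := hL.dy r hr
  have dψ := hL.dz r hr
  have hG : gg m r ≠ 0 := (gg_pos (m := m) hr0).ne'
  have hf : ff p (u r) = |u r| ^ (p - 1) * u r := rfl
  have df : HasDerivAt (fun r => ff p (u r)) (p * |u r| ^ (p - 1) * v r) r :=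
    (h1 (u r)).comp r du
  constructor
  · refine (dG.mul ((dφ.mul dv).sub (dψ.mul du))).congr_deriv ?_
    simp only [Pi.sub_apply, Pi.mul_apply]
    rw [hf]
    ring
  · have dG2 : HasDerivAt (fun r => gg m r ^ 2) (2 * gg m r * (gg m r * hh m r)) r := by
      refine (dG.pow 2).congr_deriv ?_
      simp
    refine ((((dφ.mul dG).mul dv).neg.sub (((dG2.mul ds).mul df).mul dφ)).sub
      (((ds.mul dG2).mul dv).mul dψ)).congr_deriv ?_
    simp only [Pi.mul_apply]
    rw [hf]
    field_simp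
    ring

end H98.EF
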